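import Pool.Agent.Lib.MP_dec75e_mp.SE.GMain

/-! Comparison of the iterates of two rescaled kernels. -/

open MeasureTheory Filter Topology Metric

namespace Pool.Agent.Lib.MP_dec75e_mp.SE.Gr

variable {E : Type*} [NormedAddCommGroup E] [InnerProductSpace ℝ E] [FiniteDimensional ℝ E]
  [MeasurableSpace E] [BorelSpace E]

variable {K G Y Y' S U U' φ φ' ψ ψ' : E → ℝ} {l : ℝ}

theorem cv_cv (hK : Integrable K) (hG : Integrable G) (hφ : BM φ) :
    cv (cv K G) φ = cv G (cv K φ) := by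
  funext x
  have h := cv_dual' hK (hφ.shift x) hG
  calc cv (cv K G) φ x = ∫ y, φ (x - y) * cv K G y := by
        unfold cv; congr with y; ring
    _ = _ := by
        rw [h]
        unfold cv rf
        congr with y
        rw [mul_comm, ← integral_neg_eq_self]
        congr 2 with z
        rw [neg_neg]
        congr 2
        abel_nf

theorem it_bm (hY : NI Y) (hφ : BM φ) (m : ℕ) : BM ((cv Y)^[m] φ) := by
  induction m with
  | zero => exact hφ
  | succ m ih => rw [Function.iterate_succ_apply']; exact ih.cv hY.int hY.meas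

theorem it_cv (hY : NI Y) (hG : NI G) (hφ : BM φ) (m : ℕ) :
    (cv Y)^[m] (cv G φ) = cv G ((cv Y)^[m] φ) := by
  induction m with
  | zero => rfl
  | succ m ih =>
    rw [Function.iterate_succ_apply', Function.iterate_succ_apply', ih,
      ← cv_cv hG.int hY.int (it_bm hY hφ m), cv_comm G Y, cv_cv hY.int hG.int (it_bm hY hφ m)]

theorem it_half (hY : NI Y) (hφ : BM φ) (hψ : BM ψ) (m : ℕ) :
    (cv Y)^[m] (fun x => 2⁻¹ * (φ x + ψ x))
      = fun x => 2⁻¹ * ((cv Y)^[m] φ x + (cv Y)^[m] ψ x) := by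
  induction m with
  | zero => rfl
  | succ m ih =>
    rw [Function.iterate_succ_apply', Function.iterate_succ_apply', Function.iterate_succ_apply',
      ih]
    funext x
    rw [cv_cmul, cv_add hY.int (it_bm hY hφ m) (it_bm hY hψ m)]

/-- the comparison relation -/
def R (Y Y' φ φ' : E → ℝ) : Prop :=
  BM φ ∧ BM φ' ∧ ∀ m x, (cv Y)^[m] φ x ≤ (cv Y')^[m] φ' x

/-- the iterates -/
noncomputable def W (Y S : E → ℝ) : ℕ → E → ℝ
  | 0 => fun _ => 0
  | n + 1 => cv Y fun y => 2⁻¹ * (S y + cv (W Y S n) (W Y S n) y)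

theorem ni_cv (hK : NI K) (hG : NI G) : NI (cv K G) :=
  ⟨measurable_cv hK.meas hG.meas, cv_nonneg hK.nn hG.nn, integrable_cv hK.int hG.int⟩

theorem ni_src (hS : NI S) (hU : NI U) : NI fun y => 2⁻¹ * (S y + cv U U y) :=
  (hS.add (ni_cv hU hU)).cmul (by norm_num)

theorem W_ni (hY : NI Y) (hS : NI S) (n : ℕ) : NI (W Y S n) := by
  induction n with
  | zero => exact ⟨measurable_const, fun _ => le_rfl, integrable_zero _ _ _⟩
  | succ n ih => exact ni_cv hY (ni_src hS ih)

theorem W_cv (hY : NI Y) (hS : NI S) (hφ : BM φ) (n : ℕ) : cv (W Y S (n + 1)) φ = fun x =>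
    2⁻¹ * (cv S (cv Y φ) x + cv (W Y S n) (cv (W Y S n) (cv Y φ)) x) := by
  have hW := W_ni hY hS n
  have b := hφ.cv hY.int hY.meas
  rw [W, cv_cv hY.int (ni_src hS hW).int hφ]
  funext x
  rw [cv_cmul_left, cv_add_left hS.int (ni_cv hW hW).int b, cv_cv hW.int hW.int b]

theorem R_W (hY : NI Y) (hY' : NI Y') (hS : NI S) (n : ℕ) :
    ∀ φ φ', R Y Y' φ φ' → R Y Y' (cv (W Y S n) φ) (cv (W Y' S n) φ') := by
  induction n with
  | zero =>
    intro φ φ' h
    have hW := W_ni hY hS 0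
    refine ⟨h.1.cv hW.int hW.meas, h.2.1.cv hW.int hW.meas, fun m x => ?_⟩
    rw [it_cv hY hW h.1, it_cv hY' (W_ni hY' hS 0) h.2.1]
    simp [cv, W]
  | succ n ih =>
    intro φ φ' h
    have r1 : R Y Y' (cv Y φ) (cv Y' φ') := ⟨h.1.cv hY.int hY.meas, h.2.1.cv hY'.int hY'.meas,
      fun m x => h.2.2 (m + 1) x⟩
    have r2 := ih _ _ (ih _ _ r1)
    have b1 := r1.1.cv hS.int hS.meas
    have b2 := r1.2.1.cv hS.int hS.meas
    rw [W_cv hY hS h.1, W_cv hY' hS h.2.1]
    refine ⟨(b1.add r2.1).cmul _, (b2.add r2.2.1).cmul _, fun m x => ?_⟩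
    rw [it_half hY b1 r2.1, it_half hY' b2 r2.2.1, it_cv hY hS r1.1, it_cv hY' hS r1.2.1]
    have a1 := cv_mono hS.int hS.nn (it_bm hY r1.1 m) (it_bm hY' r1.2.1 m) (r1.2.2 m) x
    have a2 := r2.2.2 m x
    simp only
    linarith

theorem R_base [Nontrivial E] (hY : NI Y) (rY : RD0 Y) (hl : 1 ≤ l)
    (sc : ∀ x, Y' x = (l ^ Module.finrank ℝ E)⁻¹ * Y (l⁻¹ • x)) (hφ : BM φ) (rφ : RD φ) :
    R Y Y' φ fun x => φ (l⁻¹ • x) := by
  have l0 : 0 < l := by linarith
  refine ⟨hφ, ?_, fun m x => ?_⟩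
  · obtain ⟨m, C, hC⟩ := hφ
    exact ⟨m.comp (measurable_const_smul _), C, fun x => hC _⟩
  have key : RD ((cv Y)^[m] φ) ∧
      (cv Y')^[m] (fun x => φ (l⁻¹ • x)) = fun x => (cv Y)^[m] φ (l⁻¹ • x) := by
    induction m with
    | zero => exact ⟨rφ, rfl⟩
    | succ m ih =>
      rw [Function.iterate_succ_apply', Function.iterate_succ_apply', ih.2]
      refine ⟨rY.cv ih.1 hY.int (it_bm hY hφ m), funext fun x => ?_⟩
      have h := Measure.integral_comp_inv_smul_of_nonneg volume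
        (fun z => Y z * (cv Y)^[m] φ (l⁻¹ • x - z)) l0.le
      unfold cv at h ⊢
      simp only [sc, mul_assoc, smul_sub, integral_const_mul, h, smul_eq_mul]
      rw [← mul_assoc, inv_mul_cancel₀ (by positivity), one_mul]
  rw [key.2]
  apply key.1
  rw [norm_smul, Real.norm_of_nonneg (inv_nonneg.2 l0.le)]
  exact mul_le_of_le_one_left (norm_nonneg _) (inv_le_one_of_one_le₀ hl)

theorem cv_ind (U : E → ℝ) (r : ℝ) (x : E) :
    cv U ((closedBall (0 : E) r).indicator 1) x = ∫ y in closedBall x r, U y := by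
  rw [← integral_indicator measurableSet_closedBall]
  unfold cv
  congr with y
  by_cases h : y ∈ closedBall x r
  · rw [Set.indicator_of_mem h, Set.indicator_of_mem, Pi.one_apply, mul_one]
    rwa [mem_closedBall_zero_iff, ← dist_eq_norm, dist_comm]
  · rw [Set.indicator_of_notMem h, Set.indicator_of_notMem, mul_zero]
    rwa [mem_closedBall_zero_iff, ← dist_eq_norm, dist_comm]

theorem W_le [Nontrivial E] (hY : NI Y) (hY' : NI Y') (hS : NI S) (rY : RD0 Y) (hl : 1 ≤ l)
    (sc : ∀ x, Y' x = (l ^ Module.finrank ℝ E)⁻¹ * Y (l⁻¹ • x)) (n : ℕ) :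
    ∀ᵐ x, W Y S n x ≤ l ^ Module.finrank ℝ E * W Y' S n x := by
  have l0 : 0 < l := by linarith
  have key : ∀ r : ℝ, 0 < r → ∀ x, ∫ y in closedBall x r, W Y S n y
      ≤ ∫ y in closedBall x (l * r), W Y' S n y := by
    intro r hr x
    have b : BM ((closedBall (0 : E) r).indicator (1 : E → ℝ)) :=
      BM.of_bounds (measurable_const.indicator measurableSet_closedBall) (C := 1)
        (fun x => Set.indicator_nonneg (fun _ _ => zero_le_one) x)
        (fun x => Set.indicator_le_self' (fun _ _ => zero_le_one) x)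
    have rd : RD ((closedBall (0 : E) r).indicator (1 : E → ℝ)) := by
      intro x y hxy
      by_cases h : y ∈ closedBall (0 : E) r
      · rw [Set.indicator_of_mem h, Set.indicator_of_mem
          (mem_closedBall_zero_iff.2 (hxy.trans (mem_closedBall_zero_iff.1 h)))]
        exact le_rfl
      · rw [Set.indicator_of_notMem h]
        exact Set.indicator_nonneg (fun _ _ => zero_le_one) x
    have h := (R_W hY hY' hS n _ _ (R_base hY rY hl sc b rd)).2.2 0 x
    have e : (fun x : E => (closedBall (0 : E) r).indicator (1 : E → ℝ) (l⁻¹ • x))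
        = (closedBall (0 : E) (l * r)).indicator 1 := by
      funext z
      have : l⁻¹ • z ∈ closedBall (0 : E) r ↔ z ∈ closedBall (0 : E) (l * r) := by
        rw [mem_closedBall_zero_iff, mem_closedBall_zero_iff, norm_smul,
          Real.norm_of_nonneg (inv_nonneg.2 l0.le), inv_mul_le_iff₀ l0]
      by_cases h : z ∈ closedBall (0 : E) (l * r)
      · rw [Set.indicator_of_mem h, Set.indicator_of_mem (this.2 h)]; rfl
      · rw [Set.indicator_of_notMem h, Set.indicator_of_notMem (this.not.2 h)]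
    simpa only [Function.iterate_zero, id, e, cv_ind] using h
  have c0 : 0 < (volume : Measure E).real (closedBall 0 1) :=
    ENNReal.toReal_pos (measure_closedBall_pos _ _ one_pos).ne' measure_closedBall_lt_top.ne
  filter_upwards [IsUnifLocDoublingMeasure.ae_tendsto_average volume
      (W_ni hY hS n).int.locallyIntegrable 1,
    IsUnifLocDoublingMeasure.ae_tendsto_average volume
      (W_ni hY' hS n).int.locallyIntegrable 1] with x h1 h2
  have p : ∀ᶠ r : ℝ in 𝓝[>] 0, 0 < r := self_mem_nhdsWithin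
  have t1 := h1 (l := 𝓝[>] (0 : ℝ)) (fun _ => x) (fun r => r) tendsto_id
    (p.mono fun r hr => mem_closedBall_self (by positivity))
  have t2 := h2 (l := 𝓝[>] (0 : ℝ)) (fun _ => x) (fun r => l * r) (by
      refine tendsto_nhdsWithin_iff.2 ⟨?_, p.mono fun r hr => mul_pos l0 hr⟩
      have : Tendsto (fun r : ℝ => l * r) (𝓝 0) (𝓝 (l * 0)) := tendsto_id.const_mul l
      rw [mul_zero] at this
      exact this.mono_left nhdsWithin_le_nhds)
    (p.mono fun r hr => mem_closedBall_self (by positivity))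
  refine le_of_tendsto_of_tendsto t1 (t2.const_mul _) (p.mono fun r hr => ?_)
  simp only [setAverage_eq, smul_eq_mul]
  rw [Measure.addHaar_real_closedBall' _ x hr.le,
    Measure.addHaar_real_closedBall' _ x (mul_pos l0 hr).le, mul_pow]
  calc _ ≤ _ := mul_le_mul_of_nonneg_left (key r hr x) (by positivity)
    _ = _ := by field_simp

theorem sq_mono (hU : NI U) (hU' : NI U') (h : U ≤ᵐ[volume] U') : cv U U ≤ᵐ[volume] cv U' U' := by
  refine (cv_mono_ae hU.int hU.nn hU.int hU'.int h).trans ?_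
  rw [cv_comm]
  exact cv_mono_ae hU'.int hU'.nn hU.int hU'.int h

theorem step_mono (hY : NI Y) (hS : NI S) (hU : NI U) (hU' : NI U') (h : U ≤ᵐ[volume] U') :
    (cv Y fun y => 2⁻¹ * (S y + cv U U y)) ≤ᵐ[volume] cv Y fun y => 2⁻¹ * (S y + cv U' U' y) := by
  refine cv_mono_ae hY.int hY.nn (ni_src hS hU).int (ni_src hS hU').int ?_
  filter_upwards [sq_mono hU hU' h] with y hy
  linarith

theorem W_mono (hY : NI Y) (hS : NI S) (n : ℕ) : W Y S n ≤ᵐ[volume] W Y S (n + 1) := by
  induction n with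
  | zero => exact Eventually.of_forall (W_ni hY hS 1).nn
  | succ n ih => exact step_mono hY hS (W_ni hY hS n) (W_ni hY hS (n + 1)) ih

theorem W_le_sol (hY : NI Y) (hS : NI S) (hU : NI U)
    (h : U =ᵐ[volume] cv Y fun y => 2⁻¹ * (S y + cv U U y)) (n : ℕ) : W Y S n ≤ᵐ[volume] U := by
  induction n with
  | zero => exact Eventually.of_forall hU.nn
  | succ n ih => exact (step_mono hY hS (W_ni hY hS n) hU ih).trans h.symm.le

theorem W_mass (hY : NI Y) (hS : NI S) (y1 : ∫ x, Y x = 1) (s1 : ∫ x, S x = 1) (n : ℕ) :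
    ∫ x, W Y S n x ≤ 1 ∧ (1 - ∫ x, W Y S n x) * (n + 2) ≤ 2 := by
  induction n with
  | zero => simp [W]
  | succ n ih =>
    have hW := W_ni hY hS n
    have x0 : 0 ≤ ∫ x, W Y S n x := integral_nonneg hW.nn
    rw [W, integral_cv hY.int (ni_src hS hW).int, integral_const_mul,
      integral_add hS.int (ni_cv hW hW).int, integral_cv hW.int hW.int, y1, s1]
    obtain ⟨h1, h2⟩ := ih
    generalize ∫ x, W Y S n x = z at *
    have n0 : (0 : ℝ) ≤ n := n.cast_nonneg
    push_cast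
    refine ⟨by nlinarith, ?_⟩
    have a : 0 ≤ (2 - (1 - z) * (n + 2)) := by linarith
    have b : 0 ≤ 1 - z := by linarith
    nlinarith [mul_nonneg a b, mul_nonneg a x0, sq_nonneg (1 - z), mul_nonneg a a]

omit [FiniteDimensional ℝ E] [MeasurableSpace E] [BorelSpace E] in
theorem yk_scale {μ : ℝ} (l0 : 0 < l) (x : E) :
    μ * yk μ x = (l ^ Module.finrank ℝ E)⁻¹ * (l ^ 2 * μ * yk (l ^ 2 * μ) (l⁻¹ • x)) := by
  have l2 : 0 < l ^ 2 := by positivity
  have h := integral_comp_mul_left_Ioi (hk μ x) 0 l2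
  rw [mul_zero] at h
  have e : ∫ t in Set.Ioi (0 : ℝ), hk μ x (l ^ 2 * t)
      = (l ^ Module.finrank ℝ E)⁻¹ * yk (l ^ 2 * μ) (l⁻¹ • x) := by
    rw [yk, ← integral_const_mul]
    refine setIntegral_congr_fun measurableSet_Ioi fun t ht => ?_
    have ht' : 0 < t := ht
    have q1 : Real.pi / (4 * (l ^ 2 * t))⁻¹ = l ^ 2 * (Real.pi / (4 * t)⁻¹) := by field_simp
    have q2 : (l ^ 2) ^ (Module.finrank ℝ E / 2 : ℝ) = l ^ Module.finrank ℝ E := by
      rw [← Real.rpow_natCast l 2, ← Real.rpow_mul l0.le, ← Real.rpow_natCast]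
      congr 1
      push_cast
      ring
    have q3 : -(4 * (l ^ 2 * t))⁻¹ * ‖x‖ ^ 2 = -(4 * t)⁻¹ * ‖l⁻¹ • x‖ ^ 2 := by
      rw [norm_smul, Real.norm_of_nonneg (inv_nonneg.2 l0.le)]
      field_simp
    have q4 : μ * (l ^ 2 * t) = l ^ 2 * μ * t := by ring
    simp only [hk]
    rw [q1, Real.mul_rpow l2.le (by positivity), q2, q3, q4]
    ring
  rw [e, smul_eq_mul] at h
  have : yk μ x = l ^ 2 * ((l ^ Module.finrank ℝ E)⁻¹ * yk (l ^ 2 * μ) (l⁻¹ • x)) := by
    rw [h, ← mul_assoc, mul_inv_cancel₀ l2.ne', one_mul, yk]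
  rw [this]
  ring

end Pool.Agent.Lib.MP_dec75e_mp.SE.Gr
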