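import Pool.Agent.FS.SimpleGrowth.Main

/-! Comparison of two solutions of the Simple equation with different potentials. -/

open MeasureTheory Filter Topology Metric

namespace Pool.Agent.Lib.MP_dec75e_mp.SE.Gr

variable {E : Type*} [NormedAddCommGroup E] [InnerProductSpace ℝ E] [FiniteDimensional ℝ E]
  [MeasurableSpace E] [BorelSpace E]

variable {v v' w w' u₁ u₂ : E → ℝ} {e₁ e₂ ρ₁ ρ₂ c : ℝ}

theorem cmp_ni [Nontrivial E] {l τ : ℝ} (hw' : NI w') (hw : NI w)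
    (ww : ∀ᵐ x, w' x ≤ c * w x) (he₁ : 0 < e₁) (hl : 1 ≤ l)
    (he : e₂ = l ^ 2 * e₁) (hρ₁ : 0 < ρ₁) (hρ₂ : 0 < ρ₂) (h₁ : Sol w' e₁ ρ₁ u₁)
    (h₂ : Sol w e₂ ρ₂ u₂) (t1 : c * l ^ 2 ≤ τ) (t2 : l ^ Module.finrank ℝ E ≤ τ) : ρ₂ ≤ τ * ρ₁ := by
  by_contra hc
  rw [not_le] at hc
  have l0 : 0 < l := by linarith
  have he₂ : 0 < e₂ := by rw [he]; positivity
  have τ0 : 0 < τ := lt_of_lt_of_le (by positivity) t2
  have K : ∀ μ : ℝ, 0 < μ → NI (fun x : E => μ * yk μ x) ∧ ∫ x : E, μ * yk μ x = 1 := by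
    intro μ hμ
    have h := yk_ker (E := E) hμ
    refine ⟨NI.cmul ⟨h.meas, h.nn, h.int⟩ hμ.le, ?_⟩
    rw [integral_const_mul, h.mass, mul_inv_cancel₀ hμ.ne']
  obtain ⟨hY, y1⟩ := K (4 * e₂) (by positivity)
  obtain ⟨hY', y1'⟩ := K (4 * e₁) (by positivity)
  have nν : NI fun x => w x * (1 - u₂ x) := ⟨hw.meas.mul h₂.u01.bm'.1,
    fun x => mul_nonneg (hw.nn x) (sub_nonneg.2 (h₂.u01.le x)), h₂.u01.bm'.int_mul hw.int⟩
  have hS := nν.cmul (c := ρ₂ / (2 * e₂)) (by positivity)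
  have s1 : ∫ x, ρ₂ / (2 * e₂) * (w x * (1 - u₂ x)) = 1 := by
    rw [integral_const_mul, div_mul_eq_mul_div, h₂.con' hw.int, div_self (by positivity)]
  have hU := (NI.of h₂.u01 h₂.int).cmul hρ₂.le
  have eU : (fun x => ρ₂ * u₂ x) =ᵐ[volume] cv (fun x : E => 4 * e₂ * yk (4 * e₂) x) fun y =>
      2⁻¹ * (ρ₂ / (2 * e₂) * (w y * (1 - u₂ y))
        + cv (fun x => ρ₂ * u₂ x) (fun x => ρ₂ * u₂ x) y) := by
    filter_upwards [h₂.eq (4 * e₂) (by positivity)] with x hx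
    rw [hx, cv_cmul_left, ← cv_cmul, ← cv_cmul]
    congr with y
    rw [cv_cmul_left, cv_cmul]
    unfold src
    field_simp
    ring
  have rY : RD0 fun x : E => 4 * e₂ * yk (4 * e₂) x := fun x y hx h =>
    mul_le_mul_of_nonneg_left ((yk_ker (by positivity)).rd x y hx h) (by positivity)
  have sc : ∀ x : E, 4 * e₁ * yk (4 * e₁) x
      = (l ^ Module.finrank ℝ E)⁻¹ * (4 * e₂ * yk (4 * e₂) (l⁻¹ • x)) := by
    intro x
    rw [yk_scale l0, show l ^ 2 * (4 * e₁) = 4 * e₂ by rw [he]; ring]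
  set Y : E → ℝ := fun x => 4 * e₂ * yk (4 * e₂) x with hYd
  set Y' : E → ℝ := fun x => 4 * e₁ * yk (4 * e₁) x with hYd'
  set S : E → ℝ := fun x => ρ₂ / (2 * e₂) * (w x * (1 - u₂ x)) with hSd
  obtain ⟨q, hq⟩ : ∃ q, q = τ / ρ₂ := ⟨_, rfl⟩
  have q0 : 0 < q := by rw [hq]; positivity
  have q1 : ρ₁ * q < 1 := by rw [hq, mul_div_assoc', div_lt_one hρ₂]; linarith
  have m₂ := h₂.mass' hw.int he₂
  refine fin hw' he₁ hρ₁ h₁ h₂.u01 h₂.int q1 fun ε hε => ?_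
  obtain ⟨n, hn⟩ := exists_nat_gt (2 * (q + ρ₂⁻¹) / ε)
  rw [div_lt_iff₀ hε] at hn
  have n0 : (0 : ℝ) ≤ n := n.cast_nonneg
  have r0 : 0 < ρ₂⁻¹ := by positivity
  have sm : ∀ d k : ℝ, 0 ≤ k → k ≤ q + ρ₂⁻¹ → d * (n + 2) ≤ 2 → k * d ≤ ε := by
    intro d k k0 k1 hd
    refine le_of_mul_le_mul_right ?_ (by positivity : (0 : ℝ) < n + 2)
    have := mul_le_mul_of_nonneg_left hd k0
    nlinarith
  have hW := W_ni hY hS n
  have hW' := W_ni hY' hS n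
  obtain ⟨a1, a2⟩ := W_mass hY hS y1 s1 n
  obtain ⟨b1, b2⟩ := W_mass hY' hS y1' s1 n
  obtain ⟨c1, -⟩ := W_mass hY' hS y1' s1 (n + 1)
  refine ⟨fun x => q * W Y' S n x, fun x => q * W Y' S (n + 1) x, fun x => ρ₂⁻¹ * W Y S n x,
    fun y => q * (4 * e₁ * (2⁻¹ * (S y + cv (W Y' S n) (W Y' S n) y))), hW'.cmul q0.le,
    hW.int.const_mul _, ((ni_src hS hW').int.const_mul _).const_mul _, ?_, ?_, ?_, ?_, ?_, ?_,
    ?_, ?_⟩
  · filter_upwards [W_mono hY' hS n] with x hx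
    exact mul_le_mul_of_nonneg_left hx q0.le
  · filter_upwards [W_le hY hY' hS rY hl sc n] with x hx
    have := hx.trans (mul_le_mul_of_nonneg_right t2 (hW'.nn x))
    calc _ ≤ ρ₂⁻¹ * (τ * W Y' S n x) := mul_le_mul_of_nonneg_left this r0.le
      _ = _ := by rw [hq]; ring
  · filter_upwards [W_le_sol hY hS hU eU n] with x hx
    exact (inv_mul_le_iff₀ hρ₂).2 hx
  · refine Eventually.of_forall fun x => ?_
    simp only
    rw [cv_cmul, cv_cmul, W, hYd', cv_cmul_left]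
  · filter_upwards [ww] with x wx
    rw [cv_cmul_left, cv_cmul]
    have c0 := cv_nonneg hW'.nn hW'.nn x
    have d1 : q * (4 * e₁ * (2⁻¹ * S x)) = τ / l ^ 2 * (w x * (1 - u₂ x)) := by
      rw [hSd, hq, he]
      field_simp
      ring
    have d0 := mul_le_mul_of_nonneg_right wx (sub_nonneg.2 (h₂.u01.le x))
    have d2 := mul_le_mul_of_nonneg_right ((le_div_iff₀ (by positivity : 0 < l ^ 2)).2 t1)
      (nν.nn x)
    have d3 := mul_le_mul_of_nonneg_right q1.le (mul_nonneg (by positivity : 0 ≤ 2 * e₁ * q) c0)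
    linarith
  · rw [integral_const_mul, integral_const_mul, ← mul_sub]
    refine le_trans (mul_le_mul_of_nonneg_left (sub_le_sub_right c1 _) q0.le) ?_
    exact sm _ _ q0.le (by linarith) b2
  · have : ∫ x, u₂ x = ρ₂⁻¹ * 1 := by rw [← m₂]; field_simp
    rw [integral_const_mul, this, ← mul_sub]
    exact sm _ _ r0.le (by linarith) a2
  · rw [integral_const_mul]
    exact mul_le_mul_of_nonneg_left (mul_le_of_le_one_right q0.le b1) hρ₁.le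

theorem exists_ni (hv0 : ∀ x, 0 ≤ v x) (hv : Integrable v) :
    ∃ w : E → ℝ, NI w ∧ w =ᵐ[volume] v ∧ ∀ {e ρ : ℝ} {u : E → ℝ}, Sol v e ρ u → Sol w e ρ u := by
  have hm := hv.aestronglyMeasurable
  let w : E → ℝ := fun x => max (hm.mk v x) 0
  have wv : w =ᵐ[volume] v := hm.ae_eq_mk.mono fun x hx => by
    simp only [w, ← hx, max_eq_left (hv0 x)]
  refine ⟨w, ⟨hm.stronglyMeasurable_mk.measurable.max measurable_const,
    fun x => le_max_right _ _, hv.congr wv.symm⟩, wv, ?_⟩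
  intro e ρ u h
  refine ⟨h.u01, h.int, fun μ hμ => ?_, ?_⟩
  · rw [cv_congr (b' := src v (μ - 4 * e) (2 * e * ρ) u u)
      (wv.mono fun y hy => by simp only [src, hy])]
    exact h.eq μ hμ
  · have : (fun y => w y * u y) =ᵐ[volume] fun y => v y * u y :=
      wv.mono fun y hy => by simp only [hy]
    rw [← h.con, integral_congr_ae wv, integral_congr_ae this]

theorem cmp_all [Nontrivial E] {l τ : ℝ} (hv0' : ∀ x, 0 ≤ v' x) (hv' : Integrable v')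
    (hv0 : ∀ x, 0 ≤ v x) (hv : Integrable v) (vv : ∀ᵐ x, v' x ≤ c * v x)
    (he₁ : 0 < e₁) (hl : 1 ≤ l)
    (he : e₂ = l ^ 2 * e₁) (hρ₁ : 0 < ρ₁) (hρ₂ : 0 < ρ₂) (h₁ : Sol v' e₁ ρ₁ u₁)
    (h₂ : Sol v e₂ ρ₂ u₂) (t1 : c * l ^ 2 ≤ τ) (t2 : l ^ Module.finrank ℝ E ≤ τ) :
    ρ₂ ≤ τ * ρ₁ := by
  obtain ⟨w', n', a', r'⟩ := exists_ni hv0' hv'
  obtain ⟨w, n, a, r⟩ := exists_ni hv0 hv
  refine cmp_ni n' n ?_ he₁ hl he hρ₁ hρ₂ (r' h₁) (r h₂) t1 t2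
  filter_upwards [vv, a', a] with x x1 x2 x3
  rw [x2, x3]
  exact x1

end Pool.Agent.Lib.MP_dec75e_mp.SE.Gr
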