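import Pool.Agent.FS.SimpleGrowth.A

/-! Growth bound for the density of the Simple equation. -/

open MeasureTheory Filter Topology Metric

namespace Pool.Agent.Lib.MP_dec75e_mp.SE.Gr

variable {E : Type*} [NormedAddCommGroup E] [InnerProductSpace ℝ E] [FiniteDimensional ℝ E]
  [MeasurableSpace E] [BorelSpace E]

variable {v w u₁ u₂ : E → ℝ} {e₁ e₂ ρ₁ ρ₂ θ : ℝ}

theorem fin [Nontrivial E] (hw : NI w) (he₁ : 0 < e₁) (hρ₁ : 0 < ρ₁) (h₁ : Sol w e₁ ρ₁ u₁)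
    (U₂ : U01 u₂) (i₂ : Integrable u₂) (θ1 : θ < 1)
    (H : ∀ ε : ℝ, 0 < ε → ∃ a b c T : E → ℝ, NI a ∧ Integrable c ∧ Integrable T ∧
      a ≤ᵐ[volume] b ∧ c ≤ᵐ[volume] a ∧ c ≤ᵐ[volume] u₂ ∧ b =ᵐ[volume] cv (yk (4 * e₁)) T ∧
      (∀ᵐ x, w x * (1 - u₂ x) + 2 * e₁ * ρ₁ * cv a a x ≤ T x) ∧ (∫ x, b x) - ∫ x, a x ≤ ε ∧
      (∫ x, u₂ x) - ∫ x, c x ≤ ε ∧ ρ₁ * ∫ x, a x ≤ θ) : False := by
  obtain ⟨κ, hκ⟩ : ∃ κ, κ = e₁ * (1 - θ) ^ 2 := ⟨_, rfl⟩
  have κ0 : 0 < κ := by rw [hκ]; exact mul_pos he₁ (pow_pos (by linarith) 2)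
  obtain ⟨M, M1, hp, ip, hM⟩ := trunc1 hw (δ := κ / 2 / ρ₁) (by positivity)
  have hμ : 0 < M + 4 * e₁ := by linarith
  obtain ⟨ε, hε⟩ : ∃ ε, ε = κ / 2 / ρ₁ / (2 * M + 4 * e₁) := ⟨_, rfl⟩
  have ε0 : 0 < ε := by rw [hε]; exact div_pos (by positivity) (by linarith)
  have εe : ρ₁ * ((2 * M + 4 * e₁) * ε) = κ / 2 := by
    have : 0 < 2 * M + 4 * e₁ := by linarith
    rw [hε]; field_simp
  obtain ⟨a, b, c, T, na, ic, iT, ab, ca, cu, eb, hT, m1, m2, m3⟩ := H ε ε0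
  have h4 : 0 < 4 * e₁ := by positivity
  have ib : Integrable b := (integrable_cv (yk_int h4) iT).congr eb.symm
  have pw : ∀ x, min (w x) M ≤ w x := fun x => min_le_left _ _
  have S₁ := h₁.sup hw.int he₁ pw le_rfl
  set Z : E → ℝ := fun x => min (u₁ x) (a x) with hZ
  have uZ : U01 Z := ⟨h₁.u01.meas.min na.meas, fun x => le_min (h₁.u01.nn x) (na.nn x),
    fun x => (min_le_left _ _).trans (h₁.u01.le x)⟩
  have iZ : Integrable Z := h₁.int.inf na.int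
  have hY := yk_ker (E := E) hμ
  have iI := isrc_int (s := fun _ => 0) (c := 2 * e₁ * ρ₁) hp ip (integrable_zero _ _ _) iZ
  have jZ := uZ.bm'.int_mul ip
  have ig := isub i₂ ic
  have iT' := iadd (isub iT (ib.const_mul (4 * e₁))) (ib.const_mul (M + 4 * e₁))
  have g0 : 0 ≤ᵐ[volume] fun x => u₂ x - c x := cu.mono fun x hx => sub_nonneg.2 hx
  have A0 : cv (yk (M + 4 * e₁)) (isrc (fun x => min (w x) M) (fun _ => 0) M (2 * e₁ * ρ₁) Z)
      ≤ᵐ[volume] cv (yk (M + 4 * e₁)) fun x =>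
        1 * (T x - 4 * e₁ * b x + (M + 4 * e₁) * b x) + M * (u₂ x - c x) := by
    refine cv_mono_ae hY.int hY.nn iI (iadd (iT'.const_mul 1) (ig.const_mul M)) ?_
    filter_upwards [ab, ca, cu, hT, sq_mono (NI.of uZ iZ) na
      (Eventually.of_forall fun x => min_le_right _ _)] with x x1 x2 x3 x4 x5
    have a1 := mul_le_mul_of_nonneg_left x5 (by positivity : 0 ≤ 2 * e₁ * ρ₁)
    have a2 := mul_le_mul_of_nonneg_left (min_le_right (u₁ x) (a x)) (sub_nonneg.2 (hp.le x))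
    have a3 := mul_le_mul_of_nonneg_left x1 (zero_le_one.trans M1)
    have a4 := mul_le_mul_of_nonneg_left x2 (hp.nn x)
    have a5 := mul_le_mul_of_nonneg_right (hp.le x) (sub_nonneg.2 x3)
    have a6 := mul_le_mul_of_nonneg_right (pw x) (sub_nonneg.2 (U₂.le x))
    simp only [isrc, hZ] at *
    linarith
  have A1 : ∫ x, cv (yk (M + 4 * e₁)) (isrc (fun x => min (w x) M) (fun _ => 0) M
      (2 * e₁ * ρ₁) Z) x
      ≤ ∫ x, (Z x + (b x - a x) + M * cv (yk (M + 4 * e₁)) (fun x => u₂ x - c x) x) := by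
    refine integral_mono_ae (integrable_cv hY.int iI)
      (iadd (iadd iZ (isub ib na.int)) ((integrable_cv hY.int ig).const_mul M)) ?_
    filter_upwards [S₁.above (fun _ => le_rfl) hp ip he₁ hρ₁.le uZ iZ fun x => min_le_left _ _,
      A0, cv_comb_ae hY.int iT' ig 1 M, Mild.of_one h4 iT eb _ hμ, ab] with x x1 x2 x3 x4 x5
    have g1 := mul_nonneg (zero_le_one.trans M1) (cv_nonneg_ae hY.nn g0 x)
    rw [x3, ← x4] at x2
    rcases le_total (u₁ x) (a x) with h | h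
    · simp only [hZ, min_eq_left h] at *
      linarith
    · simp only [hZ, min_eq_right h] at *
      linarith
  have A2 : ∫ x, isrc (fun x => min (w x) M) (fun _ => 0) M (2 * e₁ * ρ₁) Z x
      = (∫ x, min (w x) M * (1 - Z x)) + M * (∫ x, Z x)
        + 2 * e₁ * ρ₁ * ((∫ x, Z x) * ∫ x, Z x) := by
    rw [← integral_cv iZ iZ, ← integral_const_mul, ← integral_const_mul,
      ← integral_add jZ (iZ.const_mul M),
      ← integral_add (iadd jZ (iZ.const_mul M)) ((integrable_cv iZ iZ).const_mul _)]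
    congr with x
    unfold isrc
    ring
  rw [integral_cv hY.int iI, hY.mass, inv_mul_le_iff₀ hμ, A2,
    integral_add (iadd iZ (isub ib na.int)) ((integrable_cv hY.int ig).const_mul M),
    integral_add iZ (isub ib na.int), integral_sub ib na.int, integral_const_mul,
    integral_cv hY.int ig, hY.mass, integral_sub i₂ ic] at A1
  have j₁ := h₁.u01.bm'.int_mul hw.int
  have k₁ := h₁.con' hw.int
  have A3 : (∫ x, w x * (1 - u₁ x)) - κ / 2 / ρ₁ ≤ ∫ x, min (w x) M * (1 - Z x) := by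
    have : ∫ x, w x * (1 - u₁ x) ≤ ∫ x, (min (w x) M * (1 - Z x) + (w x - min (w x) M)) := by
      refine integral_mono j₁ (iadd jZ (isub hw.int ip)) fun x => ?_
      have a1 := mul_le_mul_of_nonneg_left (min_le_left (u₁ x) (a x)) (hp.nn x)
      have a2 := mul_nonneg (sub_nonneg.2 (pw x)) (h₁.u01.nn x)
      simp only [hZ]
      linarith
    rw [integral_add jZ (isub hw.int ip), integral_sub hw.int ip] at this
    linarith
  have A4 : ∫ x, Z x ≤ ∫ x, a x := integral_mono iZ na.int fun x => min_le_right _ _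
  generalize ∫ x, min (w x) M * (1 - Z x) = s at *
  generalize ∫ x, w x * (1 - u₁ x) = k at *
  generalize ∫ x, Z x = z at *
  generalize (∫ x, b x) - ∫ x, a x = d₁ at *
  generalize (∫ x, u₂ x) - ∫ x, c x = d₂ at *
  have B0 : (M + 4 * e₁) * (z + d₁ + M * ((M + 4 * e₁)⁻¹ * d₂))
      = (M + 4 * e₁) * z + (M + 4 * e₁) * d₁ + M * d₂ := by field_simp
  have B1 := mul_le_mul_of_nonneg_left m1 hμ.le
  have B2 := mul_le_mul_of_nonneg_left m2 (zero_le_one.trans M1)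
  have B3 : s + 2 * e₁ * ρ₁ * (z * z) ≤ 4 * e₁ * z + (2 * M + 4 * e₁) * ε := by linarith
  have B4 := mul_le_mul_of_nonneg_left B3 hρ₁.le
  have B5 := mul_le_mul_of_nonneg_left A3 hρ₁.le
  have B6 : ρ₁ * (κ / 2 / ρ₁) = κ / 2 := by field_simp
  have B7 : 1 - θ ≤ 1 - ρ₁ * z := by linarith [mul_le_mul_of_nonneg_left A4 hρ₁.le]
  have B8 := mul_le_mul_of_nonneg_left (pow_le_pow_left₀ (by linarith) B7 2) he₁.le
  linarith only [B4, B5, B6, B8, εe, k₁, hκ, κ0]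

theorem growth_ni [Nontrivial E] {l τ : ℝ} (hw : NI w) (he₁ : 0 < e₁) (hl : 1 ≤ l)
    (he : e₂ = l ^ 2 * e₁) (hρ₁ : 0 < ρ₁) (hρ₂ : 0 < ρ₂) (h₁ : Sol w e₁ ρ₁ u₁)
    (h₂ : Sol w e₂ ρ₂ u₂) (t1 : l ^ 2 ≤ τ) (t2 : l ^ Module.finrank ℝ E ≤ τ) : ρ₂ ≤ τ * ρ₁ := by
  by_contra hc
  rw [not_le] at hc
  have l0 : 0 < l := by linarith
  have he₂ : 0 < e₂ := by rw [he]; positivity
  have τ0 : 0 < τ := lt_of_lt_of_le (by positivity) t1
  have K : ∀ μ : ℝ, 0 < μ → NI (fun x : E => μ * yk μ x) ∧ ∫ x : E, μ * yk μ x = 1 := by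
    intro μ hμ
    have h := yk_ker (E := E) hμ
    refine ⟨NI.cmul ⟨h.meas, h.nn, h.int⟩ hμ.le, ?_⟩
    rw [integral_const_mul, h.mass, mul_inv_cancel₀ hμ.ne']
  obtain ⟨hY, y1⟩ := K (4 * e₂) (by positivity)
  obtain ⟨hY', y1'⟩ := K (4 * e₁) (by positivity)
  have nν : NI fun x => w x * (1 - u₂ x) := ⟨hw.meas.mul h₂.u01.bm'.1,
    fun x => mul_nonneg (hw.nn x) (sub_nonneg.2 (h₂.u01.le x)), h₂.u01.bm'.int_mul hw.int⟩
  have hS := nν.cmul (c := ρ₂ / (2 * e₂)) (by positivity)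
  have s1 : ∫ x, ρ₂ / (2 * e₂) * (w x * (1 - u₂ x)) = 1 := by
    rw [integral_const_mul, div_mul_eq_mul_div, h₂.con' hw.int, div_self (by positivity)]
  have hU := (NI.of h₂.u01 h₂.int).cmul hρ₂.le
  have eU : (fun x => ρ₂ * u₂ x) =ᵐ[volume] cv (fun x : E => 4 * e₂ * yk (4 * e₂) x) fun y =>
      2⁻¹ * (ρ₂ / (2 * e₂) * (w y * (1 - u₂ y))
        + cv (fun x => ρ₂ * u₂ x) (fun x => ρ₂ * u₂ x) y) := by
    filter_upwards [h₂.eq (4 * e₂) (by positivity)] with x hx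
    rw [hx, cv_cmul_left, ← cv_cmul, ← cv_cmul]
    congr with y
    rw [cv_cmul_left, cv_cmul]
    unfold src
    field_simp
    ring
  have rY : RD0 fun x : E => 4 * e₂ * yk (4 * e₂) x := fun x y hx h =>
    mul_le_mul_of_nonneg_left ((yk_ker (by positivity)).rd x y hx h) (by positivity)
  have sc : ∀ x : E, 4 * e₁ * yk (4 * e₁) x
      = (l ^ Module.finrank ℝ E)⁻¹ * (4 * e₂ * yk (4 * e₂) (l⁻¹ • x)) := by
    intro x
    rw [yk_scale l0, show l ^ 2 * (4 * e₁) = 4 * e₂ by rw [he]; ring]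
  set Y : E → ℝ := fun x => 4 * e₂ * yk (4 * e₂) x with hYd
  set Y' : E → ℝ := fun x => 4 * e₁ * yk (4 * e₁) x with hYd'
  set S : E → ℝ := fun x => ρ₂ / (2 * e₂) * (w x * (1 - u₂ x)) with hSd
  obtain ⟨q, hq⟩ : ∃ q, q = τ / ρ₂ := ⟨_, rfl⟩
  have q0 : 0 < q := by rw [hq]; positivity
  have q1 : ρ₁ * q < 1 := by rw [hq, mul_div_assoc', div_lt_one hρ₂]; linarith
  have m₂ := h₂.mass' hw.int he₂
  refine fin hw he₁ hρ₁ h₁ h₂.u01 h₂.int q1 fun ε hε => ?_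
  obtain ⟨n, hn⟩ := exists_nat_gt (2 * (q + ρ₂⁻¹) / ε)
  rw [div_lt_iff₀ hε] at hn
  have n0 : (0 : ℝ) ≤ n := n.cast_nonneg
  have r0 : 0 < ρ₂⁻¹ := by positivity
  have sm : ∀ d k : ℝ, 0 ≤ k → k ≤ q + ρ₂⁻¹ → d * (n + 2) ≤ 2 → k * d ≤ ε := by
    intro d k k0 k1 hd
    refine le_of_mul_le_mul_right ?_ (by positivity : (0 : ℝ) < n + 2)
    have := mul_le_mul_of_nonneg_left hd k0
    nlinarith
  have hW := W_ni hY hS n
  have hW' := W_ni hY' hS n
  obtain ⟨a1, a2⟩ := W_mass hY hS y1 s1 n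
  obtain ⟨b1, b2⟩ := W_mass hY' hS y1' s1 n
  obtain ⟨c1, -⟩ := W_mass hY' hS y1' s1 (n + 1)
  refine ⟨fun x => q * W Y' S n x, fun x => q * W Y' S (n + 1) x, fun x => ρ₂⁻¹ * W Y S n x,
    fun y => q * (4 * e₁ * (2⁻¹ * (S y + cv (W Y' S n) (W Y' S n) y))), hW'.cmul q0.le,
    hW.int.const_mul _, ((ni_src hS hW').int.const_mul _).const_mul _, ?_, ?_, ?_, ?_, ?_, ?_,
    ?_, ?_⟩
  · filter_upwards [W_mono hY' hS n] with x hx
    exact mul_le_mul_of_nonneg_left hx q0.le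
  · filter_upwards [W_le hY hY' hS rY hl sc n] with x hx
    have := hx.trans (mul_le_mul_of_nonneg_right t2 (hW'.nn x))
    calc _ ≤ ρ₂⁻¹ * (τ * W Y' S n x) := mul_le_mul_of_nonneg_left this r0.le
      _ = _ := by rw [hq]; ring
  · filter_upwards [W_le_sol hY hS hU eU n] with x hx
    exact (inv_mul_le_iff₀ hρ₂).2 hx
  · refine Eventually.of_forall fun x => ?_
    simp only
    rw [cv_cmul, cv_cmul, W, hYd', cv_cmul_left]
  · refine Eventually.of_forall fun x => ?_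
    rw [cv_cmul_left, cv_cmul]
    have c0 := cv_nonneg hW'.nn hW'.nn x
    have d1 : q * (4 * e₁ * (2⁻¹ * S x)) = τ / l ^ 2 * (w x * (1 - u₂ x)) := by
      rw [hSd, hq, he]
      field_simp
      ring
    have d2 := le_mul_of_one_le_left (nν.nn x) ((one_le_div (by positivity)).2 t1)
    have d3 := mul_le_mul_of_nonneg_right q1.le (mul_nonneg (by positivity : 0 ≤ 2 * e₁ * q) c0)
    linarith
  · rw [integral_const_mul, integral_const_mul, ← mul_sub]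
    refine le_trans (mul_le_mul_of_nonneg_left (sub_le_sub_right c1 _) q0.le) ?_
    exact sm _ _ q0.le (by linarith) b2
  · have : ∫ x, u₂ x = ρ₂⁻¹ * 1 := by rw [← m₂]; field_simp
    rw [integral_const_mul, this, ← mul_sub]
    exact sm _ _ r0.le (by linarith) a2
  · rw [integral_const_mul]
    exact mul_le_mul_of_nonneg_left (mul_le_of_le_one_right q0.le b1) hρ₁.le

theorem growth_all [Nontrivial E] {l τ : ℝ} (hv0 : ∀ x, 0 ≤ v x) (hv : Integrable v)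
    (he₁ : 0 < e₁) (hl : 1 ≤ l)
    (he : e₂ = l ^ 2 * e₁) (hρ₁ : 0 < ρ₁) (hρ₂ : 0 < ρ₂) (h₁ : Sol v e₁ ρ₁ u₁)
    (h₂ : Sol v e₂ ρ₂ u₂) (t1 : l ^ 2 ≤ τ) (t2 : l ^ Module.finrank ℝ E ≤ τ) : ρ₂ ≤ τ * ρ₁ := by
  have hm := hv.aestronglyMeasurable
  let w : E → ℝ := fun x => max (hm.mk v x) 0
  have wv : w =ᵐ[volume] v := hm.ae_eq_mk.mono fun x hx => by
    simp only [w, ← hx, max_eq_left (hv0 x)]
  have tr : ∀ {e ρ : ℝ} {u : E → ℝ}, Sol v e ρ u → Sol w e ρ u := by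
    intro e ρ u h
    refine ⟨h.u01, h.int, fun μ hμ => ?_, ?_⟩
    · rw [cv_congr (b' := src v (μ - 4 * e) (2 * e * ρ) u u)
        (wv.mono fun y hy => by simp only [src, hy])]
      exact h.eq μ hμ
    · have : (fun y => w y * u y) =ᵐ[volume] fun y => v y * u y :=
        wv.mono fun y hy => by simp only [hy]
      rw [← h.con, integral_congr_ae wv, integral_congr_ae this]
  exact growth_ni ⟨hm.stronglyMeasurable_mk.measurable.max measurable_const,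
    fun x => le_max_right _ _, hv.congr wv.symm⟩ he₁ hl he hρ₁ hρ₂ (tr h₁) (tr h₂) t1 t2

end Pool.Agent.Lib.MP_dec75e_mp.SE.Gr
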